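import Pool.Agent.R838.ST.Ahp

set_option autoImplicit false

/-!
# MP_f0209c_nt: the Alternative Hypothesis and the de Bruijn-Newman flow

`H t z` is the integral of `exp (t * u ^ 2) * Phi u * cos (z * u)` over `u > 0`, so that `H 0 z` is
`ξ(1/2 + i z / 2) / 8`: the zeros of `H 0` are the numbers `z` for which `1/2 + i z / 2` is a nontrivial zero
of zeta.  We call `Re z / 2` the ordinate of a zero `z` of `H t`.

No hypothesis is assumed.  We consider the normalised spacings, that is `log T / (2π)` times the distance of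
consecutive different ordinates up to `T`.

* If `0 ≤ t ≤ δ / log² T` then the distributions of the spacings of zeta and of `H t` agree, up to changes of
  the spacings by `ε` and an error `ε T log T` for their number.
* Hence if `t(T) log² T → 0` then for every closed set `E` almost all the spacings of zeta are close to `E` if and
  only if this is true of the spacings of `H (t T)`; and the Alternative Hypothesis implies that almost all the
  spacings of `H (t T)` are close to positive multiples of `1/2`.
* If `t(T) log² T → ∞` (and `t(T) log T` is bounded) then almost all the spacings of `H (t T)` are close to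
  `1`.

So the deformed zeta function satisfies the Alternative Hypothesis (for almost all spacings) as soon as `t` is large
compared with `1 / log² T`; and a positive proportion of spacings of `H (t T)` that avoid the multiples of `1/2`, for
one function `t(T) = o(1 / log² T)`, would disprove it for zeta.

Idea of the proof.  Outside of exceptional windows the function `ξ` has, at the scale of `a` mean spacings, the
growth of a function of exponential type.  There the heat flow for a time `δ / log² T` is a small perturbation and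
Rouché's theorem on small discs around clusters of zeros gives an injection of the zeros of one function
to the zeros of the other one that moves them by at most `ε / log T`.  For larger times the flow is computed by
the saddle point method.  The number of zeros in the exceptional windows is small.
-/

open Filter Topology

namespace Pool.Agent.Results.MP_f0209c_nt.HeatFlowTransition

/-- The de Bruijn-Newman kernel. -/
noncomputable def Phi (u : ℝ) : ℝ := ∑' n : ℕ,
  (2 * Real.pi ^ 2 * ((n : ℝ) + 1) ^ 4 * Real.exp (9 * u) -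
    3 * Real.pi * ((n : ℝ) + 1) ^ 2 * Real.exp (5 * u)) *
    Real.exp (-(Real.pi * ((n : ℝ) + 1) ^ 2 * Real.exp (4 * u)))

/-- The de Bruijn-Newman family: the integral of `exp (t u²) Φ(u) cos (z u)` over `u > 0`. -/
noncomputable def H (t : ℝ) (z : ℂ) : ℂ :=
  ∫ u in Set.Ioi (0 : ℝ), ((Real.exp (t * u ^ 2) * Phi u : ℝ) : ℂ) * Complex.cos (z * u)

/-- The ordinates of the nontrivial zeros of zeta. -/
def zetaOrd : Set ℝ := {y | ∃ s : ℂ, 0 < s.re ∧ s.re < 1 ∧ riemannZeta s = 0 ∧ s.im = y}

/-- The ordinates `Re z / 2` of the zeros `z` of `H t`. -/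
def heatOrd (t : ℝ) : Set ℝ := {y | ∃ z : ℂ, H t z = 0 ∧ z.re / 2 = y}

/-- The pairs of consecutive different elements of `A`. -/
def Consec (A : Set ℝ) : Set (ℝ × ℝ) :=
  {p | p.1 < p.2 ∧ p.1 ∈ A ∧ p.2 ∈ A ∧ ∀ y ∈ A, ¬ (p.1 < y ∧ y < p.2)}

/-- The number of the consecutive pairs in `(0, T]` with normalised distance between `α` and `β`. -/
noncomputable def gaps (A : Set ℝ) (T α β : ℝ) : ℝ :=
  ({p : ℝ × ℝ | p ∈ Consec A ∧ 0 < p.1 ∧ p.2 ≤ T ∧ α ≤ (p.2 - p.1) * (Real.log T / (2 * Real.pi)) ∧
    (p.2 - p.1) * (Real.log T / (2 * Real.pi)) ≤ β}.ncard : ℝ)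

/-- Almost all spacings are close to `E`: intervals `[α, β]`, `α > 0`, which do not meet `E` contain `o(T log T)`
of them. `N T α β` is the number of the spacings up to `T` in `[α, β]`. -/
def Near (N : ℝ → ℝ → ℝ → ℝ) (E : Set ℝ) : Prop := ∀ α β : ℝ, 0 < α → α ≤ β → Disjoint (Set.Icc α β) E →
  Tendsto (fun T : ℝ => N T α β / (T * Real.log T)) atTop (𝓝 0)

/-- The positive multiples of `1/2`. -/
def halfIntegers : Set ℝ := {x | ∃ m : ℕ, 1 ≤ m ∧ x = (m : ℝ) / 2}

/-- The Alternative Hypothesis for the distances of consecutive different ordinates: the distance of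
`(γ' log γ' - γ log γ) / 2π` from the positive multiples of `1/2` tends to `0`. -/
def AlternativeHypothesis : Prop := ∀ ε : ℝ, 0 < ε → ∃ Y : ℝ, ∀ p ∈ Consec zetaOrd, Y ≤ p.1 →
  ∃ m : ℕ, 1 ≤ m ∧ |(p.2 * Real.log p.2 - p.1 * Real.log p.1) / (2 * Real.pi) - (m : ℝ) / 2| < ε

theorem result :
    (∀ α β ε : ℝ, 0 < ε → ε ≤ α → ∃ δ T₀ : ℝ, 0 < δ ∧ ∀ T t : ℝ, T₀ ≤ T → 0 ≤ t → t ≤ δ / Real.log T ^ 2 →
      gaps zetaOrd T α β ≤ gaps (heatOrd t) T (α - ε) (β + ε) + ε * (T * Real.log T) ∧
      gaps (heatOrd t) T α β ≤ gaps zetaOrd T (α - ε) (β + ε) + ε * (T * Real.log T)) ∧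
    (∀ t : ℝ → ℝ, (∀ T, 0 ≤ t T) → Tendsto (fun T => t T * Real.log T ^ 2) atTop (𝓝 0) →
      (AlternativeHypothesis → Near (fun T => gaps (heatOrd (t T)) T) halfIntegers) ∧
      ∀ E : Set ℝ, IsClosed E → (Near (gaps zetaOrd) E ↔ Near (fun T => gaps (heatOrd (t T)) T) E)) ∧
    (∀ (t : ℝ → ℝ) (A : ℝ), (∀ᶠ T in atTop, t T * Real.log T ≤ A) →
      Tendsto (fun T => t T * Real.log T ^ 2) atTop atTop →
      Near (fun T => gaps (heatOrd (t T)) T) {1}) := by
  refine ⟨fun α β ε hε hεα => ?_, fun t ht ht2 => ⟨fun h => ?_, fun E hE => ?_⟩, fun t A hA ht => ?_⟩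
  · obtain ⟨δ, T0, hδ, hT0, h⟩ := Pool.Agent.R838.ST.cmpP α β ε hε hεα
    exact ⟨δ, T0, hδ, h⟩
  · exact (Pool.Agent.R838.ST.equiv_gap ht ht2 Pool.Agent.R838.ST.Half_closed).1
      (Pool.Agent.R838.ST.ah_near h)
  · exact Pool.Agent.R838.ST.equiv_gap ht ht2 hE
  · exact Pool.Agent.R838.ST.cry_near hA ht

end Pool.Agent.Results.MP_f0209c_nt.HeatFlowTransition
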