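import Pool.Agent.R482.GB.LatC

/-!
# Pairs of zeros in Bohr sets do not lie near a lattice coarser than the half-integers (under RH)

Assume the Riemann hypothesis and let `σ > 1/2`. We prove that in every Bohr set (more generally for
every nonempty open subset `U` of a torus) a positive proportion of the pairs of zeros `γ, γ'` with
`γ` in the Bohr set and bounded normalised difference have a normalised difference
`(γ - γ') log T / 2π` that stays away from all multiples of `σ`; the proportion is at least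
`c(σ) |U|`.
-/

open Filter Topology Complex MeasureTheory

namespace Pool.Agent.Results.MP_f0209c_nt.NoCoarseLatticeInBohrSets

/-- the nontrivial zeros of zeta with ordinate in `(T₁, T₂]` -/
def zeros (T₁ T₂ : ℝ) : Set ℂ :=
  {s : ℂ | riemannZeta s = 0 ∧ 0 < s.re ∧ s.re < 1 ∧ T₁ < s.im ∧ s.im ≤ T₂}

/-- the multiplicity of a zero -/
noncomputable def mult (s : ℂ) : ℕ := analyticOrderNatAt riemannZeta s

/-- the number of nontrivial zeros with ordinate in `(T₁, T₂]`, counted with multiplicity -/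
noncomputable def N (T₁ T₂ : ℝ) : ℕ := ∑ᶠ s ∈ zeros T₁ T₂, mult s

/-- the point `α t mod 1` of the torus `(ℝ/ℤ)^k` -/
def pt {k : ℕ} (α : Fin k → ℝ) (t : ℝ) : UnitAddTorus (Fin k) :=
  fun j => ((α j * t : ℝ) : UnitAddCircle)

/-- the normalised Haar measure of the torus -/
noncomputable def haar (k : ℕ) : Measure (UnitAddTorus (Fin k)) :=
  Measure.pi fun _ => AddCircle.haarAddCircle

/-- the number of ordered pairs of zeros, counted with multiplicity, with ordinates `γ, γ'` in
`(T, 2T]`, `α γ mod 1 ∈ U`, `|γ - γ'| ≤ 2πR / log T` and such that `(γ - γ') log T / 2π` has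
distance at least `ε` from every integer multiple of `σ` -/
noncomputable def offLattice {k : ℕ} (α : Fin k → ℝ) (U : Set (UnitAddTorus (Fin k)))
    (σ R ε T : ℝ) : ℕ :=
  ∑ᶠ s ∈ {s : ℂ | s ∈ zeros T (2 * T) ∧ pt α s.im ∈ U},
    ∑ᶠ s' ∈ {s' : ℂ | s' ∈ zeros T (2 * T) ∧ |s.im - s'.im| ≤ 2 * Real.pi * R / Real.log T ∧
        ∀ n : ℤ, ε ≤ |(s.im - s'.im) * Real.log T / (2 * Real.pi) - n * σ|},
      mult s * mult s'

open H370 in
lemma zeros_eq (T₁ T₂ : ℝ) : zeros T₁ T₂ = H370.zset riemannZeta T₁ T₂ := by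
  ext s
  simp only [zeros, H370.zset, Set.mem_ofPred_eq]
  tauto

lemma N_eq (T₁ T₂ : ℝ) : N T₁ T₂ = H370.NN riemannZeta T₁ T₂ := by
  unfold N H370.NN H370.mult mult
  rw [zeros_eq]

lemma zeros_finite {T : ℝ} (hT : 1 ≤ T) : (zeros T (2 * T)).Finite := by
  have h : (↑(H370.Zf riemannZeta T (2 * T)) : Set ℂ).Finite := Finset.finite_toSet _
  refine h.subset fun s hs => ?_
  rw [Finset.mem_coe, H370.mem_Zf H370.good_zeta hT, ← zeros_eq]
  exact hs

open Classical in
lemma off_eq {k : ℕ} (α : Fin k → ℝ) (U : Set (UnitAddTorus (Fin k))) (σ R ε : ℝ) {T : ℝ}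
    (hT : 1 ≤ T) : (offLattice α U σ R ε T : ℝ) =
      ∑ s ∈ H370.Zf riemannZeta T (2 * T), ∑ s' ∈ H370.Zf riemannZeta T (2 * T),
        (H370.mult riemannZeta s : ℝ) * (H370.mult riemannZeta s' : ℝ) *
          (if |s.im - s'.im| ≤ 2 * Real.pi * R / Real.log T ∧
              ∀ n : ℤ, ε ≤ |(s.im - s'.im) * Real.log T / (2 * Real.pi) - n * σ| then
            (if pt α s.im ∈ U then 1 else 0) else 0) := by
  have hfin := zeros_finite hT
  unfold offLattice
  have h2 : {s : ℂ | s ∈ zeros T (2 * T) ∧ pt α s.im ∈ U}.Finite := hfin.subset fun s hs => hs.1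
  rw [finsum_mem_eq_finite_toFinset_sum _ h2]
  push_cast
  have e : h2.toFinset = (H370.Zf riemannZeta T (2 * T)).filter (fun s => pt α s.im ∈ U) := by
    ext s
    rw [Set.Finite.mem_toFinset, Finset.mem_filter, H370.mem_Zf H370.good_zeta hT, ← zeros_eq]
    rfl
  rw [e, Finset.sum_filter]
  refine Finset.sum_congr rfl fun s _ => ?_
  have h3 : {s' : ℂ | s' ∈ zeros T (2 * T) ∧
      |s.im - s'.im| ≤ 2 * Real.pi * R / Real.log T ∧
        ∀ n : ℤ, ε ≤ |(s.im - s'.im) * Real.log T / (2 * Real.pi) - n * σ|}.Finite :=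
    hfin.subset fun s hs => hs.1
  have e2 : h3.toFinset = (H370.Zf riemannZeta T (2 * T)).filter
      (fun s' => |s.im - s'.im| ≤ 2 * Real.pi * R / Real.log T ∧
        ∀ n : ℤ, ε ≤ |(s.im - s'.im) * Real.log T / (2 * Real.pi) - n * σ|) := by
    ext s'
    rw [Set.Finite.mem_toFinset, Finset.mem_filter, H370.mem_Zf H370.good_zeta hT, ← zeros_eq]
    rfl
  rw [finsum_mem_eq_finite_toFinset_sum _ h3, e2, Finset.sum_filter]
  push_cast
  split_ifs with h
  · refine Finset.sum_congr rfl fun s' _ => ?_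
    split_ifs
    · rw [mul_one]; rfl
    · rw [mul_zero]
  · rw [eq_comm]
    apply Finset.sum_eq_zero
    intro s' _
    split_ifs <;> simp

/-- **no lattice coarser than the half-integers in any Bohr set, assuming RH** -/
theorem result (RH : RiemannHypothesis) (σ : ℝ) (hσ : 1 / 2 < σ) :
    ∃ c : ℝ, 0 < c ∧ ∀ δ : ℝ, 0 < δ → ∃ R ε : ℝ, 0 < R ∧ 0 < ε ∧
      ∀ (k : ℕ) (α : Fin k → ℝ), (∀ n : Fin k → ℤ, ∑ j, (n j : ℝ) * α j = 0 → n = 0) →
      ∀ U : Set (UnitAddTorus (Fin k)), IsOpen U → δ ≤ (haar k U).toReal →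
      ∃ T₀ : ℝ, ∀ T : ℝ, T₀ ≤ T →
        c * (haar k U).toReal * (N T (2 * T) : ℝ) ≤ (offLattice α U σ R ε T : ℝ) := by
  classical
  have hpi := Real.pi_pos
  have hσ0 : 0 < σ := by linarith
  obtain ⟨c0, hc0, h⟩ := R482.GB.pair_lattice RH (θ := 1 / σ) (by positivity)
    (by rw [div_lt_iff₀ hσ0]; linarith)
  refine ⟨c0 / 2, by positivity, fun δ hδ => ?_⟩
  obtain ⟨R, η, hR, hη, h1⟩ := h (δ / 2) (by positivity)
  refine ⟨R / (2 * Real.pi), σ * η / Real.pi, by positivity, by positivity,
    fun k α hα U hU hUδ => ?_⟩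
  obtain ⟨F, hF0, hF1, hFU, hFM⟩ := R482.GB.open_inner hU
    (show 0 < (TH803TW.haarT k U).toReal from lt_of_lt_of_le hδ hUδ)
  have hM : (haar k U).toReal / 2 ≤ ∫ x, F x ∂(TH803TW.haarT k) := hFM
  obtain ⟨T1, hT1, h2⟩ := h1 k α hα F hF0 hF1 (by linarith)
  obtain ⟨T2, hT2, h3⟩ := R482.GB.NN_two
  refine ⟨max T1 T2, fun T hT => ?_⟩
  have b1 := h2 T ((le_max_left _ _).trans hT)
  have b2 := (h3 T ((le_max_right _ _).trans hT)).2
  have hT10 : 10 ≤ T := hT1.trans ((le_max_left _ _).trans hT)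
  have hL : 0 < Real.log T := Real.log_pos (by linarith)
  rw [N_eq, off_eq α U σ _ _ (by linarith)]
  have hTL : 0 ≤ T * Real.log T := by
    have : 0 ≤ T := by linarith
    positivity
  have hN0 : (0 : ℝ) ≤ H370.NN riemannZeta T (2 * T) := Nat.cast_nonneg _
  have hU0 : 0 ≤ (haar k U).toReal := ENNReal.toReal_nonneg
  calc c0 / 2 * (haar k U).toReal * (H370.NN riemannZeta T (2 * T) : ℝ) =
      c0 * ((haar k U).toReal / 2) * (H370.NN riemannZeta T (2 * T) : ℝ) := by ring
    _ ≤ c0 * (∫ x, F x ∂(TH803TW.haarT k)) * (T * Real.log T) := by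
        have : 0 ≤ ∫ x, F x ∂(TH803TW.haarT k) := by linarith
        gcongr
    _ ≤ _ := b1
    _ ≤ _ := by
        refine Finset.sum_le_sum fun s _ => Finset.sum_le_sum fun s' _ => ?_
        apply mul_le_mul_of_nonneg_left _ (by positivity)
        by_cases hc : |Real.log T * (s.im - s'.im)| ≤ R ∧
            η < |Real.sin (1 / σ / 2 * (Real.log T * (s.im - s'.im)))|
        · have g1 : |s.im - s'.im| ≤ 2 * Real.pi * (R / (2 * Real.pi)) / Real.log T := by
            rw [le_div_iff₀ hL]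
            have := hc.1
            rw [abs_mul, abs_of_pos hL] at this
            have e : 2 * Real.pi * (R / (2 * Real.pi)) = R := by field_simp
            rw [e]
            linarith
          have g2 : ∀ n : ℤ, σ * η / Real.pi ≤
              |(s.im - s'.im) * Real.log T / (2 * Real.pi) - n * σ| := by
            intro n
            apply R482.GB.off_lattice hσ0
            have e : 2 * Real.pi * ((s.im - s'.im) * Real.log T / (2 * Real.pi)) =
                Real.log T * (s.im - s'.im) := by field_simp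
            rw [e]
            exact hc.2
          rw [if_pos hc, if_pos ⟨g1, g2⟩]
          have e : TH803TW.torusPt α s.im = pt α s.im := rfl
          rw [e]
          split_ifs with h5
          · exact hF1 _
          · exact le_of_eq (hFU _ h5)
        · rw [if_neg hc]
          split_ifs <;> norm_num

end Pool.Agent.Results.MP_f0209c_nt.NoCoarseLatticeInBohrSets
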