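import Pool.Agent.Y749.AH.Main

/-!
# The spacings avoid every lattice coarser than the half-integers

Assume the Riemann hypothesis.  For every `s > 1/2` there is `ε > 0` such that for all large `T` a
proportion at least `ε` of the normalised spacings `d_j`, `γ_j ≤ T`, has a distance at least `ε` from
all the multiples of `s`.  So the lattice `(1/2) ℤ` of the Alternative Hypothesis is exactly on the
border of what Montgomery's theorem excludes.

Idea of the proof.  If almost all spacings up to `T` are near `s ℤ` (for a sequence of `T`), then so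
are almost all differences of zeros in every bounded window, because clusters of zeros are rare;
then the form factor has mass one at `1 / s` and is weakly periodic with period `1 / s < 2`, which
contradicts the known form factor on `(-1, 1)`.
-/

open Filter

namespace Pool.Agent.Results.MP_f0209c_nt.NoCoarserLattice

/-- multiplicity of `s` as a zero of the Riemann zeta function (order of vanishing at `s`) -/
noncomputable def zmult (s : ℂ) : ℕ := analyticOrderNatAt riemannZeta s

/-- the number of nontrivial zeros of `ζ` with ordinate in `(0, t]`, with multiplicity -/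
noncomputable def NZ (t : ℝ) : ℕ :=
  ∑ᶠ s ∈ {s : ℂ | riemannZeta s = 0 ∧ 0 < s.re ∧ s.re < 1 ∧ 0 < s.im ∧ s.im ≤ t}, zmult s

/-- for `j ≥ 1`: the `j`-th positive ordinate `γ j` of a nontrivial zero of `ζ`, the ordinates being
listed in nondecreasing order and repeated according to multiplicity -/
noncomputable def γ (j : ℕ) : ℝ := sInf {t : ℝ | j ≤ NZ t}

/-- the normalised spacings `d_j = γ_{j+1} log γ_{j+1} / 2π - γ_j log γ_j / 2π` -/
noncomputable def d (j : ℕ) : ℝ :=
  (γ (j + 1) * Real.log (γ (j + 1)) - γ j * Real.log (γ j)) / (2 * Real.pi)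

/-- On the Riemann hypothesis: for every `s > 1/2` there is `ε > 0` such that for all large `T` at
least `ε N(T)` of the spacings `d_j`, `γ_j ≤ T`, have distance at least `ε` from all the numbers
`k s`, `k` an integer. -/
theorem result (hRH : RiemannHypothesis) (s : ℝ) (hs : 1 / 2 < s) :
    ∃ ε : ℝ, 0 < ε ∧ ∀ᶠ T : ℝ in atTop, ε * (NZ T : ℝ) ≤
      ({j : ℕ | 1 ≤ j ∧ j ≤ NZ T ∧ ∀ k : ℤ, ε ≤ |d j - k * s|}.ncard : ℝ) := by
  obtain ⟨ε, R0, h1, -, -, h3, -⟩ := Pool.Agent.Y749.AH.M.mainX hRH hs
  exact ⟨ε, h1, h3⟩

end Pool.Agent.Results.MP_f0209c_nt.NoCoarserLattice
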